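import Pool.Agent.H51.MFM.S

/-!
# MFM, module DVP: divisibility by the powers of a prime
-/

set_option autoImplicit false

open Module MvPolynomial

namespace Pool.MFM

open Pool.MFQ

namespace DVPaux

theorem der_restrict {O K : Type} [CommRing O] [Algebra ℂ O] [CommRing K] [Algebra ℂ K]
    [Algebra O K] [IsScalarTower ℂ O K] (hinj : Function.Injective (algebraMap O K))
    (δ : Derivation ℂ K K)
    (h : ∀ x : O, ∃ y : O, δ (algebraMap O K x) = algebraMap O K y) :
    ∃ d : Derivation ℂ O O, ∀ x, δ (algebraMap O K x) = algebraMap O K (d x) := by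
  choose d hd using h
  refine ⟨Derivation.mk' { toFun := d, map_add' := ?_, map_smul' := ?_ } ?_, hd⟩
  · intro x y
    apply hinj
    rw [← hd, map_add, map_add, map_add, hd, hd]
  · intro c x
    apply hinj
    have e : ∀ z : O, algebraMap O K (c • z) = c • algebraMap O K z := by
      intro z
      rw [Algebra.smul_def, map_mul, ← IsScalarTower.algebraMap_apply, ← Algebra.smul_def]
    rw [← hd, e, Derivation.map_smul, hd, RingHom.id_apply, e]
  · intro x y
    apply hinj
    change algebraMap O K (d (x * y)) = algebraMap O K (x • d y + y • d x)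
    rw [← hd, map_mul, Derivation.leibniz, hd, hd, map_add, smul_eq_mul, smul_eq_mul,
      smul_eq_mul, smul_eq_mul, map_mul, map_mul]

theorem exists_map {O K ι : Type} [CommRing O] [CommRing K] [Algebra O K]
    (W : MvPolynomial ι K) (h : ∀ γ, ∃ r : O, coeff γ W = algebraMap O K r) :
    ∃ G : MvPolynomial ι O, map (algebraMap O K) G = W := by
  choose r hr using h
  refine ⟨∑ γ ∈ W.support, monomial γ (r γ), ?_⟩
  rw [map_sum]
  conv_rhs => rw [W.as_sum]
  refine Finset.sum_congr rfl fun γ _ => ?_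
  rw [map_monomial, hr]

theorem aeval_range {O K α β : Type} [CommRing O] [CommRing K] [Algebra O K]
    (Θ : MvPolynomial α K →ₐ[K] MvPolynomial β K)
    (h : ∀ a, ∃ G : MvPolynomial β O, map (algebraMap O K) G = Θ (X a)) (G : MvPolynomial α O) :
    ∃ G' : MvPolynomial β O, map (algebraMap O K) G' = Θ (map (algebraMap O K) G) := by
  induction G using MvPolynomial.induction_on with
  | C a => exact ⟨C a, by rw [map_C, map_C]; exact (Θ.commutes _).symm⟩
  | add p q hp hq =>
    obtain ⟨p', hp'⟩ := hp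
    obtain ⟨q', hq'⟩ := hq
    exact ⟨p' + q', by rw [map_add, hp', hq', map_add, map_add]⟩
  | mul_X p a hp =>
    obtain ⟨p', hp'⟩ := hp
    obtain ⟨x', hx'⟩ := h a
    exact ⟨p' * x', by rw [map_mul, hp', hx', map_mul, map_X, map_mul]⟩

theorem exists_der {K τ : Type} [CommRing K] [Algebra ℂ K] [Fintype τ]
    (D' : τ → Derivation ℂ K K) (φ : τ → K) :
    ∃ δ : Derivation ℂ K K, ∀ x, δ x = ∑ i, φ i * D' i x := by
  refine ⟨∑ i, φ i • D' i, fun x => ?_⟩
  have h : ∀ s : Finset τ, (∑ i ∈ s, φ i • D' i : Derivation ℂ K K) x = ∑ i ∈ s, φ i * D' i x := by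
    intro s
    classical
    induction s using Finset.induction_on with
    | empty => simp
    | insert a s ha ih =>
      rw [Finset.sum_insert ha, Finset.sum_insert ha, Derivation.add_apply, ih,
        Derivation.smul_apply, smul_eq_mul]
  exact h _

theorem wL_zero {σ τ : Type} [Fintype τ]
    (D : τ → Derivation ℂ (MvPolynomial σ ℂ) (MvPolynomial σ ℂ)) (P : Lm σ τ) (n : ℕ) :
    wL D P n 0 = toP P ^ n := by
  induction n with
  | zero => simp [wL]
  | succ n ih => rw [wL, ih, pow_succ']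

/-- `dvG` is linear in `P`. -/
theorem lin_snd {σ τ ι : Type} [Fintype ι] (P : ι → Lm σ τ) (s : ι → ℂ) (i : τ) :
    (∑ a, s a • P a).2 i = ∑ a, s a • (P a).2 i := by
  rw [Prod.snd_sum, Finset.sum_apply]
  rfl

theorem lin_fst {σ τ ι : Type} [Fintype ι] (P : ι → Lm σ τ) (s : ι → ℂ) :
    (∑ a, s a • P a).1 = ∑ a, s a • (P a).1 := by
  rw [Prod.fst_sum]
  rfl

theorem dvG_lin {σ τ ι : Type} [Fintype τ] [Fintype ι]
    (D : τ → Derivation ℂ (MvPolynomial σ ℂ) (MvPolynomial σ ℂ)) (P : ι → Lm σ τ) (s : ι → ℂ)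
    (φ : MvPolynomial σ ℂ) :
    dvG D (∑ a, s a • P a) φ = ∑ a, s a • dvG D (P a) φ := by
  unfold dvG
  simp_rw [lin_snd, Finset.sum_mul, Finset.smul_sum]
  rw [Finset.sum_comm]
  refine Finset.sum_congr rfl fun a _ => Finset.sum_congr rfl fun i _ => ?_
  rw [smul_mul_assoc]

theorem dvG_sum {σ τ ι : Type} [Fintype τ] [Fintype ι]
    (D : τ → Derivation ℂ (MvPolynomial σ ℂ) (MvPolynomial σ ℂ)) (P : Lm σ τ) (s : ι → ℂ)
    (φ : ι → MvPolynomial σ ℂ) :
    dvG D P (∑ a, s a • φ a) = ∑ a, s a • dvG D P (φ a) := by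
  unfold dvG
  simp_rw [map_sum, Derivation.map_smul, Finset.mul_sum, Finset.smul_sum]
  rw [Finset.sum_comm]
  refine Finset.sum_congr rfl fun a _ => Finset.sum_congr rfl fun i _ => ?_
  rw [mul_smul_comm]

end DVPaux

open DVPaux in
theorem dvp_core (hILB : ILBStmt) (hDEX : DEXStmt) (hPIV : PIVStmt) (hLDG : LDGStmt)
    (hSUB : SUBStmt) {σ τ ι J : Type} [Fintype σ] [Fintype τ] [Fintype ι] [Fintype J]
    (D : τ → Derivation ℂ (MvPolynomial σ ℂ) (MvPolynomial σ ℂ)) (β : τ → τ → MvPolynomial σ ℂ)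
    (P : ι → Lm σ τ) (Δ : MvPolynomial σ ℂ) (N : ℕ) (c : J → MvPolynomial σ ℂ)
    (s : J → ι → ℂ) (n : J → ℕ) (F : MvPolynomial τ (MvPolynomial σ ℂ))
    (H : DHyp D β P Δ N c s n F) (p : MvPolynomial σ ℂ) (hp : Prime p) (hpΔ : p ∣ Δ)
    (O K : Type) [CommRing O] [IsDomain O] [IsPrincipalIdealRing O] [Algebra ℂ O]
    [Algebra (MvPolynomial σ ℂ) O] [IsScalarTower ℂ (MvPolynomial σ ℂ) O]
    [Field K] [Algebra ℂ K] [Algebra O K] [Algebra (MvPolynomial σ ℂ) K] [IsFractionRing O K]
    [IsScalarTower ℂ O K] [IsScalarTower (MvPolynomial σ ℂ) O K]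
    [IsScalarTower ℂ (MvPolynomial σ ℂ) K]
    (h1 : Function.Injective (algebraMap (MvPolynomial σ ℂ) O)) (h2 : ∀ a b : O, a ∣ b ∨ b ∣ a)
    (h3 : ∀ x : O, ∃ a b : MvPolynomial σ ℂ, ¬ p ∣ b ∧
        x * algebraMap (MvPolynomial σ ℂ) O b = algebraMap (MvPolynomial σ ℂ) O a)
    (h4 : ∀ b : MvPolynomial σ ℂ, ¬ p ∣ b → IsUnit (algebraMap (MvPolynomial σ ℂ) O b))
    (h5 : ∀ (c : MvPolynomial σ ℂ) (e : ℕ), algebraMap (MvPolynomial σ ℂ) O (p ^ e) ∣
        algebraMap (MvPolynomial σ ℂ) O c → p ^ e ∣ c)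
    (h6 : ∀ x : O, x ≠ 0 → ∃ (e : ℕ) (u : O), IsUnit u ∧
        x = algebraMap (MvPolynomial σ ℂ) O (p ^ e) * u) (i : ℕ) (γ : τ →₀ ℕ) :
    algebraMap (MvPolynomial σ ℂ) O (Δ ^ N) ∣ algebraMap (MvPolynomial σ ℂ) O
      (coeff γ (∑ j, C (c j) * wL D (∑ a, s j a • P a) (n j) i)) := by
  classical
  set M := algebraMap (MvPolynomial σ ℂ) K with hM
  set MO := algebraMap O K with hMO
  have hMO_inj : Function.Injective MO := IsFractionRing.injective O K
  have hMcomp : ∀ b, M b = MO (algebraMap (MvPolynomial σ ℂ) O b) :=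
    fun b => IsScalarTower.algebraMap_apply _ _ _ b
  have hM_inj : Function.Injective M := by
    intro x y hxy
    rw [hMcomp, hMcomp] at hxy
    exact h1 (hMO_inj hxy)
  have hM0 : ∀ b, b ≠ 0 → M b ≠ 0 := fun b hb h => hb (hM_inj (by rw [h, map_zero]))
  have hfrac : ∀ x : K, ∃ a b : MvPolynomial σ ℂ, b ≠ 0 ∧ x * M b = M a := by
    intro x
    obtain ⟨u, v, hv, rfl⟩ := IsFractionRing.div_surjective (A := O) x
    obtain ⟨a1, b1, hb1, e1⟩ := h3 u
    obtain ⟨a2, b2, hb2, e2⟩ := h3 v
    have hv0 : v ≠ 0 := nonZeroDivisors.ne_zero hv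
    have hb1' : b1 ≠ 0 := fun h => hb1 (h ▸ dvd_zero p)
    have hb2' : b2 ≠ 0 := fun h => hb2 (h ▸ dvd_zero p)
    have ha2 : a2 ≠ 0 := by
      rintro rfl
      rw [map_zero] at e2
      rcases mul_eq_zero.1 e2 with h | h
      · exact hv0 h
      · exact hb2' (h1 (by rw [h, map_zero]))
    refine ⟨a1 * b2, b1 * a2, mul_ne_zero hb1' ha2, ?_⟩
    have hv1 : MO v ≠ 0 := fun h => hv0 (hMO_inj (by rw [h, map_zero]))
    have e1' := congrArg MO e1
    have e2' := congrArg MO e2
    rw [map_mul, ← hMcomp, ← hMcomp] at e1' e2'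
    change MO u / MO v * M (b1 * a2) = M (a1 * b2)
    rw [map_mul, map_mul, ← e1', ← e2']
    field_simp
  obtain ⟨hex, huniq⟩ := hDEX (MvPolynomial σ ℂ) K hM_inj hfrac
  choose D' hD' using fun i => hex (D i)
  have hcomm' : ∀ i j x, D' i (D' j x) = D' j (D' i x) := by
    intro i j x
    have h := huniq ⁅D' i, D' j⁆ (fun b => by
      rw [Derivation.commutator_apply, hD', hD', hD', hD', H.comm i j b, sub_self])
    have h' := congrArg (fun δ : Derivation ℂ K K => δ x) h
    simp only [Derivation.commutator_apply, Derivation.zero_apply] at h'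
    exact sub_eq_zero.1 h'
  -- the derivations given by the `P a`
  choose δP hδP using fun a => exists_der D' (fun i => M ((P a).2 i))
  have hδM : ∀ a b, δP a (M b) = M (dvG D (P a) b) := by
    intro a b
    rw [hδP]
    unfold dvG
    rw [map_sum]
    refine Finset.sum_congr rfl fun i _ => ?_
    rw [hD', map_mul]
  -- the constants
  let K₀ : Subfield K :=
    { carrier := {x | ∀ a, δP a x = 0}
      mul_mem' := by
        intro x y hx hy a
        rw [Derivation.leibniz, hx a, hy a, smul_zero, smul_zero, add_zero]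
      one_mem' := fun a => Derivation.map_one_eq_zero _
      add_mem' := by
        intro x y hx hy a
        rw [map_add, hx a, hy a, add_zero]
      zero_mem' := fun a => map_zero _
      neg_mem' := by
        intro x hx a
        rw [map_neg, hx a, neg_zero]
      inv_mem' := by
        intro x hx a
        rw [Derivation.leibniz_inv, hx a, smul_zero] }
  have hK₀ : ∀ x, x ∈ K₀ ↔ ∀ a, δP a x = 0 := fun x => Iff.rfl
  let I : Subring K := MO.range
  have hI : ∀ x, x ∈ I ↔ ∃ r : O, MO r = x := fun x => Iff.rfl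
  have hIval : ∀ x : K, x ∈ I ∨ x⁻¹ ∈ I := by
    intro x
    obtain ⟨u, v, hv, rfl⟩ := IsFractionRing.div_surjective (A := O) x
    have hv0 : v ≠ 0 := nonZeroDivisors.ne_zero hv
    have hv1 : MO v ≠ 0 := fun h => hv0 (hMO_inj (by rw [h, map_zero]))
    rcases h2 u v with ⟨w, hw⟩ | ⟨w, hw⟩
    · right
      have hu1 : MO u ≠ 0 := by
        intro h
        apply hv1
        rw [hw, map_mul, h, zero_mul]
      refine ⟨w, ?_⟩
      change MO w = (MO u / MO v)⁻¹
      rw [inv_div, eq_div_iff hu1, hw, map_mul, mul_comm]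
    · left
      refine ⟨w, ?_⟩
      change MO w = MO u / MO v
      rw [eq_div_iff hv1, hw, map_mul, mul_comm]
  have hMI : ∀ b, M b ∈ I := fun b => ⟨_, (hMcomp b).symm⟩
  let r : ι → τ → K := fun a i => M ((P a).2 i)
  have hrK : ∀ a i, r a i ∈ K₀ := by
    intro a i b
    change δP b (M ((P a).2 i)) = 0
    rw [hδM, H.const, map_zero]
  have hrI : ∀ a i, r a i ∈ I := fun a i => hMI _
  have hlin : LinearIndependent K r := by
    rw [Fintype.linearIndependent_iff]
    intro g hg
    choose ga gb hgb hge using fun a => hfrac (g a)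
    have hli := Fintype.linearIndependent_iff.1 H.indep
      (fun a => ga a * ∏ b ∈ Finset.univ.erase a, gb b) (by
        funext i
        apply hM_inj
        have h7 := congrFun hg i
        rw [Finset.sum_apply] at h7 ⊢
        rw [map_sum]
        have h8 : ∀ a, M (((ga a * ∏ b ∈ Finset.univ.erase a, gb b) • (P a).2) i) =
            M (∏ b, gb b) * ((g a • r a) i) := by
          intro a
          rw [Pi.smul_apply, Pi.smul_apply, smul_eq_mul, smul_eq_mul, map_mul, map_mul, ← hge,
            ← Finset.mul_prod_erase Finset.univ gb (Finset.mem_univ a), map_mul]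
          change g a * M (gb a) * M (∏ b ∈ Finset.univ.erase a, gb b) * M ((P a).2 i) =
            M (gb a) * M (∏ b ∈ Finset.univ.erase a, gb b) * (g a * M ((P a).2 i))
          ring
        rw [Finset.sum_congr rfl fun a _ => h8 a, ← Finset.mul_sum, h7]
        simp)
    intro a
    have h9 := hli a
    have h10 : (∏ b ∈ Finset.univ.erase a, gb b) ≠ 0 :=
      Finset.prod_ne_zero_iff.2 fun b _ => hgb b
    have h11 : ga a = 0 := (mul_eq_zero.1 h9).resolve_right h10
    have h12 := hge a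
    rw [h11, map_zero] at h12
    exact (mul_eq_zero.1 h12).resolve_right (hM0 _ (hgb a))
  obtain ⟨f, A, A', hAA', hA'A, hAK, hAI, hpiv⟩ := hPIV K ι τ I K₀ hIval r hlin hrK
  -- the new family
  let φ : ι → τ → K := fun a i => ∑ b, A a b * r b i
  have hφI : ∀ a i, φ a i ∈ I := hAI
  have hφK : ∀ a i, φ a i ∈ K₀ := fun a i =>
    K₀.sum_mem fun b _ => K₀.mul_mem (hAK a b).1 (hrK b i)
  choose δ hδ using fun a => exists_der D' (φ a)
  have hδA : ∀ a x, δ a x = ∑ b, A a b * δP b x := by
    intro a x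
    rw [hδ]
    simp_rw [hδP, Finset.mul_sum]
    rw [Finset.sum_comm]
    refine Finset.sum_congr rfl fun i _ => ?_
    change (∑ b, A a b * r b i) * D' i x = _
    rw [Finset.sum_mul]
    exact Finset.sum_congr rfl fun b _ => by ring
  have hδK : ∀ a, ∀ x ∈ K₀, δ a x = 0 := by
    intro a x hx
    rw [hδA]
    exact Finset.sum_eq_zero fun b _ => by rw [hx b, mul_zero]
  have hδcomm : ∀ a b x, δ a (δ b x) = δ b (δ a x) := by
    have key : ∀ a b x, δ a (δ b x) = ∑ j, ∑ i, φ b j * (φ a i * D' i (D' j x)) := by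
      intro a b x
      rw [hδ b x, map_sum]
      refine Finset.sum_congr rfl fun j _ => ?_
      rw [Derivation.leibniz, hδK a _ (hφK b j), smul_zero, add_zero, smul_eq_mul, hδ a,
        Finset.mul_sum]
    intro a b x
    rw [key, key, Finset.sum_comm]
    refine Finset.sum_congr rfl fun i _ => Finset.sum_congr rfl fun j _ => ?_
    rw [hcomm' i j x]
    ring
  -- `D'` preserves `O`
  have hD'I : ∀ i, ∀ x ∈ I, D' i x ∈ I := by
    rintro i _ ⟨x, rfl⟩
    obtain ⟨a, b, hb, e⟩ := h3 x
    have hu := h4 b hb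
    obtain ⟨v, hv⟩ := hu.exists_right_inv
    have e' := congrArg MO e
    rw [map_mul, ← hMcomp, ← hMcomp] at e'
    have e2 := congrArg (D' i) e'
    rw [Derivation.leibniz, hD', hD', smul_eq_mul, smul_eq_mul] at e2
    have hv' := congrArg MO hv
    rw [map_mul, ← hMcomp, map_one] at hv'
    have e3 : D' i (MO x) = MO v * (M (D i a) - MO x * M (D i b)) := by
      calc D' i (MO x) = (M b * MO v) * D' i (MO x) := by rw [hv', one_mul]
        _ = MO v * (M b * D' i (MO x)) := by ring
        _ = MO v * (M (D i a) - MO x * M (D i b)) := by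
          congr 1
          linear_combination e2
    rw [e3]
    exact I.mul_mem ⟨v, rfl⟩ (I.sub_mem (hMI _) (I.mul_mem ⟨x, rfl⟩ (hMI _)))
  have hδI : ∀ a, ∀ x : O, ∃ y : O, δ a (MO x) = MO y := by
    intro a x
    have : δ a (MO x) ∈ I := by
      rw [hδ]
      exact I.sum_mem fun i _ => I.mul_mem (hφI a i) (hD'I i _ ⟨x, rfl⟩)
    obtain ⟨y, hy⟩ := this
    exact ⟨y, hy.symm⟩
  choose d hd using fun a => der_restrict hMO_inj (δ a) (hδI a)
  -- `Δ`
  have hΔK : M Δ ∈ K₀ := by
    intro a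
    rw [hδM, H.cΔ, map_zero]
  have hcK : ∀ j, M (c j) ∈ K₀ := by
    intro j a
    rw [hδM, H.cc, map_zero]
  have hdvd : ∀ (a : O) i, ∃ b, d i a = a * b := by
    intro a i
    refine hLDG O (algebraMap (MvPolynomial σ ℂ) O p) ?_ ?_ (d i)
      (algebraMap (MvPolynomial σ ℂ) O Δ) ?_ ?_ ?_ a
    · intro x hx
      obtain ⟨e, u, hu, hxe⟩ := h6 x hx
      exact ⟨e, u, hu, by rw [← map_pow]; exact hxe⟩
    · intro hu
      have h7 := h5 1 1 (by
        rw [pow_one, map_one]
        exact hu.dvd)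
      rw [pow_one] at h7
      exact hp.not_isUnit (isUnit_of_dvd_one h7)
    · intro h
      exact H.ne (h1 (by rw [h, map_zero]))
    · exact map_dvd _ hpΔ
    · apply hMO_inj
      rw [← hd, ← hMcomp, hδK i _ hΔK, map_zero]
  -- the one-form
  let g : ι → K := fun a => ∑ b, A a b * M ((P b).1)
  have hclosed : ∀ a b, ∃ r : O, δ a (g b) - δ b (g a) = algebraMap O K r := by
    intro a b
    have key : ∀ a b, δ a (g b) = ∑ e, ∑ e', A a e * A b e' * M (dvG D (P e) (P e').1) := by
      intro a b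
      rw [map_sum, Finset.sum_comm]
      refine Finset.sum_congr rfl fun e' _ => ?_
      rw [Derivation.leibniz, hδK a _ (hAK b e').1, smul_zero, add_zero, smul_eq_mul, hδA,
        Finset.mul_sum]
      refine Finset.sum_congr rfl fun e _ => ?_
      rw [hδM]
      ring
    have e1 : δ a (g b) - δ b (g a) = - ∑ i, ∑ j, φ a i * φ b j * M (β i j) := by
      have e2 : ∑ i, ∑ j, φ a i * φ b j * M (β i j) =
          ∑ e, ∑ e', A a e * A b e' * M (∑ i, ∑ j, (P e).2 i * (P e').2 j * β i j) := by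
        simp_rw [map_sum, map_mul, Finset.mul_sum]
        have e3 : ∀ i j, φ a i * φ b j * M (β i j) =
            ∑ e, ∑ e', A a e * A b e' * (M ((P e).2 i) * M ((P e').2 j) * M (β i j)) := by
          intro i j
          change (∑ e, A a e * r e i) * (∑ e', A b e' * r e' j) * M (β i j) = _
          rw [Finset.sum_mul_sum, Finset.sum_mul]
          refine Finset.sum_congr rfl fun e _ => ?_
          rw [Finset.sum_mul]
          refine Finset.sum_congr rfl fun e' _ => ?_
          change A a e * M ((P e).2 i) * (A b e' * M ((P e').2 j)) * M (β i j) = _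
          ring
        simp_rw [e3]
        calc ∑ i, ∑ j, ∑ e, ∑ e', A a e * A b e' * (M ((P e).2 i) * M ((P e').2 j) * M (β i j))
            = ∑ i, ∑ e, ∑ j, ∑ e',
              A a e * A b e' * (M ((P e).2 i) * M ((P e').2 j) * M (β i j)) :=
              Finset.sum_congr rfl fun i _ => Finset.sum_comm
          _ = ∑ e, ∑ i, ∑ j, ∑ e',
              A a e * A b e' * (M ((P e).2 i) * M ((P e').2 j) * M (β i j)) := Finset.sum_comm
          _ = ∑ e, ∑ i, ∑ e', ∑ j,
              A a e * A b e' * (M ((P e).2 i) * M ((P e').2 j) * M (β i j)) :=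
              Finset.sum_congr rfl fun e _ => Finset.sum_congr rfl fun i _ => Finset.sum_comm
          _ = ∑ e, ∑ e', ∑ i, ∑ j,
              A a e * A b e' * (M ((P e).2 i) * M ((P e').2 j) * M (β i j)) :=
              Finset.sum_congr rfl fun e _ => Finset.sum_comm
      rw [e2, key, key]
      have e4 : ∑ e, ∑ e', A b e * A a e' * M (dvG D (P e) (P e').1) =
          ∑ e, ∑ e', A a e * A b e' * M (dvG D (P e') (P e).1) := by
        rw [Finset.sum_comm]
        exact Finset.sum_congr rfl fun e _ => Finset.sum_congr rfl fun e' _ => by ring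
      rw [e4, ← Finset.sum_sub_distrib, ← Finset.sum_neg_distrib]
      refine Finset.sum_congr rfl fun e _ => ?_
      rw [← Finset.sum_sub_distrib, ← Finset.sum_neg_distrib]
      refine Finset.sum_congr rfl fun e' _ => ?_
      have e5 := congrArg M (H.pois e e')
      rw [map_sub, map_add, map_zero] at e5
      linear_combination (A a e * A b e') * e5
    have e6 : δ a (g b) - δ b (g a) ∈ I := by
      rw [e1]
      exact I.neg_mem (I.sum_mem fun i _ => I.sum_mem fun j _ =>
        I.mul_mem (I.mul_mem (hφI a i) (hφI b j)) (hMI _))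
    obtain ⟨y, hy⟩ := e6
    exact ⟨y, hy.symm⟩
  have hΔ0 : M Δ ^ N ≠ 0 := pow_ne_zero _ (hM0 _ H.ne)
  let c' : J → K := fun j => M (c j) / M Δ ^ N
  have hc'K : ∀ j, c' j ∈ K₀ := fun j => K₀.div_mem (hcK j) (K₀.pow_mem hΔK N)
  let s' : J → ι → K := fun j b => ∑ a, algebraMap ℂ K (s j a) * A' a b
  have hCK : ∀ z : ℂ, algebraMap ℂ K z ∈ K₀ := fun z a => Derivation.map_algebraMap _ z
  have hs'K : ∀ j b, s' j b ∈ K₀ := fun j b =>
    K₀.sum_mem fun a _ => K₀.mul_mem (hCK _) (hAK a b).2
  -- change of basis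
  have hchange : ∀ (j : J) (v : ι → K),
      ∑ b, s' j b * ∑ e, A b e * v e = ∑ a, algebraMap ℂ K (s j a) * v a := by
    intro j v
    have e1 : ∀ a, ∑ b, A' a b * ∑ e, A b e * v e = v a := by
      intro a
      simp_rw [Finset.mul_sum]
      rw [Finset.sum_comm]
      have e2 : ∀ e, ∑ b, A' a b * (A b e * v e) = (A' * A) a e * v e := by
        intro e
        rw [Matrix.mul_apply, Finset.sum_mul]
        exact Finset.sum_congr rfl fun b _ => by ring
      simp_rw [e2, hA'A, Matrix.one_apply, ite_mul, one_mul, zero_mul]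
      rw [Finset.sum_ite_eq Finset.univ a, if_pos (Finset.mem_univ a)]
    have e3 : ∑ b, s' j b * ∑ e, A b e * v e =
        ∑ a, algebraMap ℂ K (s j a) * ∑ b, A' a b * ∑ e, A b e * v e := by
      simp_rw [s', Finset.sum_mul]
      rw [Finset.sum_comm]
      refine Finset.sum_congr rfl fun a _ => ?_
      rw [Finset.mul_sum]
      exact Finset.sum_congr rfl fun b _ => by ring
    rw [e3]
    exact Finset.sum_congr rfl fun a _ => by rw [e1]
  have hsmulM : ∀ (z : ℂ) (b : MvPolynomial σ ℂ), M (z • b) = algebraMap ℂ K z * M b := by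
    intro z b
    rw [Algebra.smul_def, map_mul, hM, ← IsScalarTower.algebraMap_apply]
  have hsnd : ∀ j i, M ((∑ a, s j a • P a).2 i) = ∑ b, s' j b * φ b i := by
    intro j i
    rw [lin_snd, map_sum]
    have := hchange j (fun e => r e i)
    rw [this]
    exact Finset.sum_congr rfl fun a _ => hsmulM _ _
  have hfst : ∀ j, M ((∑ a, s j a • P a).1) = ∑ b, s' j b * g b := by
    intro j
    rw [lin_fst, map_sum]
    have := hchange j (fun e => M ((P e).1))
    rw [this]
    exact Finset.sum_congr rfl fun a _ => hsmulM _ _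
  have hder : ∀ j x, ∑ b, s' j b * δ b x = ∑ i, M ((∑ a, s j a • P a).2 i) * D' i x := by
    intro j x
    simp_rw [hsnd, hδ, Finset.mul_sum, Finset.sum_mul]
    rw [Finset.sum_comm]
    exact Finset.sum_congr rfl fun b _ => Finset.sum_congr rfl fun i _ => by ring
  have hself : ∀ j i, dvG D (∑ a, s j a • P a) ((∑ a, s j a • P a).2 i) = 0 := by
    intro j i
    rw [dvG_lin]
    refine Finset.sum_eq_zero fun a _ => ?_
    rw [lin_snd, dvG_sum]
    rw [Finset.sum_eq_zero fun b _ => by rw [H.const, smul_zero], smul_zero]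
  -- the two homomorphisms
  let Φ : MvPolynomial ι K →ₐ[K] MvPolynomial τ K := aeval (fun b => ∑ i, C (φ b i) * X i)
  let ρ : MvPolynomial τ K →ₐ[K] MvPolynomial ι K :=
    aeval (fun i => ∑ e, if f e = i then X e else 0)
  have hρΦ : ∀ W, ρ (Φ W) = W := by
    intro W
    have : (ρ.comp Φ) = AlgHom.id K _ := by
      apply MvPolynomial.algHom_ext
      intro b
      rw [AlgHom.comp_apply, AlgHom.id_apply]
      change ρ (aeval _ (X b)) = X b
      rw [aeval_X, map_sum]
      have e1 : ∀ i, ρ (C (φ b i) * X i) = ∑ e, if f e = i then C (φ b i) * X e else 0 := by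
        intro i
        rw [map_mul]
        change ρ (algebraMap K _ (φ b i)) * _ = _
        rw [ρ.commutes]
        change C (φ b i) * aeval _ (X i) = _
        rw [aeval_X, Finset.mul_sum]
        exact Finset.sum_congr rfl fun e _ => by rw [mul_ite, mul_zero]
      simp_rw [e1]
      rw [Finset.sum_comm]
      have e2 : ∀ e, (∑ i, if f e = i then C (φ b i) * X e else 0 : MvPolynomial ι K) =
          if b = e then X e else 0 := by
        intro e
        rw [Finset.sum_ite_eq Finset.univ (f e), if_pos (Finset.mem_univ _)]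
        have := hpiv b e
        change C (∑ b', A b b' * r b' (f e)) * X e = _
        rw [this]
        split_ifs <;> simp
      simp_rw [e2]
      rw [Finset.sum_ite_eq Finset.univ b, if_pos (Finset.mem_univ _)]
    exact congrArg (fun θ : MvPolynomial ι K →ₐ[K] MvPolynomial ι K => θ W) this
  have hΦI : ∀ b, ∃ G : MvPolynomial τ O, map (algebraMap O K) G = Φ (X b) := by
    intro b
    choose y hy using fun i => hφI b i
    refine ⟨∑ i, C (y i) * X i, ?_⟩
    change _ = aeval _ (X b)
    rw [aeval_X, map_sum]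
    refine Finset.sum_congr rfl fun i _ => ?_
    rw [map_mul, map_C, map_X]
    congr 2
    exact hy i
  have hρI : ∀ i, ∃ G : MvPolynomial ι O, map (algebraMap O K) G = ρ (X i) := by
    intro i
    refine ⟨∑ e, if f e = i then X e else 0, ?_⟩
    change _ = aeval _ (X i)
    rw [aeval_X, map_sum]
    refine Finset.sum_congr rfl fun e _ => ?_
    split_ifs
    · rw [map_X]
    · rw [map_zero]
  have hΦW : ∀ k, Φ (Wp δ g c' s' n k) =
      C ((M Δ ^ N)⁻¹) * map M (∑ j, C (c j) * wL D (∑ a, s j a • P a) (n j) k) := by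
    intro k
    unfold Wp
    rw [map_sum, map_sum, Finset.mul_sum]
    refine Finset.sum_congr rfl fun j _ => ?_
    rw [map_mul, map_mul, map_C, hSUB σ τ K D D' (∑ a, s j a • P a) hD' (hself j) (n j) k]
    change Φ (algebraMap K _ (c' j)) * _ = _
    rw [Φ.commutes]
    change C (M (c j) / M Δ ^ N) * _ = _
    rw [← mul_assoc, ← C_mul, div_eq_inv_mul]
    congr 1
    have e1 : Φ (Polynomial.aeval (sT (s' j)) (wq (fun x => ∑ b, s' j b * δ b x)
        (∑ b, s' j b * g b) (n j) k)) = Polynomial.aeval (Φ (sT (s' j)))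
          (wq (fun x => ∑ b, s' j b * δ b x) (∑ b, s' j b * g b) (n j) k) :=
      (Polynomial.aeval_algHom_apply Φ _ _).symm
    rw [e1]
    have e2 : Φ (sT (s' j)) = ∑ i, C (M ((∑ a, s j a • P a).2 i)) * X i := by
      unfold sT
      rw [map_sum]
      have e3 : ∀ b, Φ (C (s' j b) * X b) = ∑ i, C (s' j b * φ b i) * X i := by
        intro b
        rw [map_mul]
        change Φ (algebraMap K _ (s' j b)) * aeval _ (X b) = _
        rw [Φ.commutes, aeval_X, Finset.mul_sum]
        refine Finset.sum_congr rfl fun i _ => ?_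
        change C (s' j b) * _ = _
        rw [C_mul, mul_assoc]
      simp_rw [e3]
      rw [Finset.sum_comm]
      refine Finset.sum_congr rfl fun i _ => ?_
      rw [hsnd, map_sum, Finset.sum_mul]
    have e4 : (fun x => ∑ b, s' j b * δ b x) =
        fun x => ∑ i, M ((∑ a, s j a • P a).2 i) * D' i x := funext fun x => hder j x
    rw [e2, e4, ← hfst j]
  -- the term of degree zero
  have hΦ0 : Φ (Wp δ g c' s' n 0) = map M F := by
    rw [hΦW]
    have e1 : ∑ j, C (c j) * wL D (∑ a, s j a • P a) (n j) 0 = C (Δ ^ N) * F := by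
      rw [← H.eq]
      exact Finset.sum_congr rfl fun j _ => by rw [wL_zero]
    rw [e1, map_mul, map_C, ← mul_assoc, ← C_mul, map_pow, inv_mul_cancel₀ hΔ0, C_1, one_mul]
  have hW0 : ∀ γ, ∃ r : O, coeff γ (Wp δ g c' s' n 0) = algebraMap O K r := by
    obtain ⟨G, hG⟩ := aeval_range (O := O) ρ hρI (map (algebraMap (MvPolynomial σ ℂ) O) F)
    have e1 : map (algebraMap O K) (map (algebraMap (MvPolynomial σ ℂ) O) F) = map M F := by
      rw [map_map, ← IsScalarTower.algebraMap_eq (MvPolynomial σ ℂ) O K]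
    rw [e1, ← hΦ0, hρΦ] at hG
    intro γ'
    exact ⟨coeff γ' G, by rw [← hG, coeff_map]⟩
  have hWi := hILB O K ι J δ d g c' s' n hMO_inj (fun i a => hd i a) hδcomm h2 hdvd hclosed
    (fun a j => hδK a _ (hc'K j)) (fun a j b => hδK a _ (hs'K j b)) hW0 i
  obtain ⟨G, hG⟩ := exists_map (Wp δ g c' s' n i) hWi
  obtain ⟨G', hG'⟩ := aeval_range (O := O) Φ hΦI G
  rw [hG, hΦW] at hG'
  have hfin := congrArg (coeff γ) hG'
  rw [coeff_map, coeff_C_mul, coeff_map] at hfin
  refine ⟨coeff γ G', hMO_inj ?_⟩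
  rw [map_mul, ← hMcomp, ← hMcomp, map_pow]
  change M _ = M Δ ^ N * algebraMap O K _
  rw [hfin, ← mul_assoc, mul_inv_cancel₀ hΔ0, one_mul]

/-- DVP -/
theorem t_dvp (hILB : ILBStmt) (hDEX : DEXStmt) (hPIV : PIVStmt) (hLCZ : LCZStmt)
    (hLDG : LDGStmt) (hSUB : SUBStmt) : DVPStmt := by
  intro σ τ ι J _ _ _ _ D β P Δ N c s n F H p e hp hpΔ hpe i γ
  obtain ⟨O, i1, i2, i3, i4, i5, i6, h1, h2, h3, h4, h5, h6⟩ := hLCZ σ p hp
  refine h5 _ e ((map_dvd _ hpe).trans ?_)
  exact dvp_core hILB hDEX hPIV hLDG hSUB D β P Δ N c s n F H p hp hpΔ O (FractionRing O)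
    h1 h2 h3 h4 h5 h6 i γ

end Pool.MFM
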